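import Pool.Agent.Helper32.FR.Defs

/-!
# Project FR, module A1: amalgamation of two finite tree approximations with chains
-/

set_option autoImplicit false

namespace Pool.Agent.Helper32.FR

variable {Ω : Type} [LinearOrder Ω]

/-- Two elements below a chain are comparable. -/
theorem h30_cmp {p : TC Ω} {c : Finset Ω} (hc : p.Chn c) {x y : Ω} (hx : x ∈ p.d)
    (hy : y ∈ p.d) (h1 : ∃ u ∈ c, x = u ∨ p.R x u) (h2 : ∃ u ∈ c, y = u ∨ p.R y u) :
    x = y ∨ p.R x y ∨ p.R y x := by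
  obtain ⟨u, hu, h1⟩ := h1
  obtain ⟨v, hv, h2⟩ := h2
  have hud := hc.1 hu
  have hvd := hc.1 hv
  -- both below one element of the chain
  have key : ∀ w ∈ p.d, (x = w ∨ p.R x w) → (y = w ∨ p.R y w) →
      x = y ∨ p.R x y ∨ p.R y x := by
    rintro w hw (rfl | h3) (rfl | h4)
    · exact Or.inl rfl
    · exact Or.inr (Or.inr h4)
    · exact Or.inr (Or.inl h3)
    · exact p.tree x hx y hy w hw h3 h4
  rcases hc.2 u hu v hv with rfl | h | h
  · exact key u hud h1 h2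
  · refine key v hvd ?_ h2
    rcases h1 with rfl | h1
    · exact Or.inr h
    · exact Or.inr (p.trans x hx u hud v hvd h1 h)
  · refine key u hud h1 ?_
    rcases h2 with rfl | h2
    · exact Or.inr h
    · exact Or.inr (p.trans y hy v hvd u hud h2 h)

/-- FR-A1: amalgamation. -/
theorem amalg (p q : TC Ω) (cp cq D : Finset Ω) (hp : p.Chn cp) (hq : q.Chn cq)
    (hD : ∀ x, x ∈ D ↔ x ∈ p.d ∧ x ∈ q.d) (hn : p.n = q.n)
    (hR : ∀ x ∈ D, ∀ y ∈ D, (p.R x y ↔ q.R x y))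
    (ha : ∀ x ∈ D, ∀ k, k < p.n → (p.a x k ↔ q.a x k))
    (hc : ∀ x ∈ D, ((∃ u ∈ cp, x = u ∨ p.R x u) ↔ ∃ u ∈ cq, x = u ∨ q.R x u))
    (hDp : ∀ x ∈ D, ∀ y ∈ p.d, y ∉ D → x < y) (hpq : ∀ x ∈ p.d, ∀ y ∈ q.d, y ∉ D → x < y) :
    ∃ r : TC Ω, r ≤ p ∧ r ≤ q ∧ r.Chn (cp ∪ cq) := by
  classical
  -- the lower parts
  let dp : Ω → Prop := fun x => ∃ u ∈ cp, x = u ∨ p.R x u
  let dq : Ω → Prop := fun x => ∃ u ∈ cq, x = u ∨ q.R x u
  let E : Ω → Ω → Prop := fun x y => x ∈ p.d ∧ x ∉ D ∧ dp x ∧ y ∈ q.d ∧ y ∉ D ∧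
    ∃ z ∈ q.d, z ∉ D ∧ dq z ∧ (z = y ∨ q.R z y)
  let RR : Ω → Ω → Prop := fun x y =>
    (x ∈ p.d ∧ y ∈ p.d ∧ p.R x y) ∨ (x ∈ q.d ∧ y ∈ q.d ∧ q.R x y) ∨ E x y
  have mD : ∀ x, x ∈ p.d → x ∈ q.d → x ∈ D := fun x h1 h2 => (hD x).2 ⟨h1, h2⟩
  have Dp : ∀ x, x ∈ D → x ∈ p.d := fun x h => ((hD x).1 h).1
  have Dq : ∀ x, x ∈ D → x ∈ q.d := fun x h => ((hD x).1 h).2
  -- below an element of `D` in `p`
  have downp : ∀ x ∈ p.d, ∀ y ∈ D, p.R x y → x ∈ D := by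
    intro x hx y hy h
    by_contra hxD
    exact absurd (p.lt x hx y (Dp y hy) h) (not_lt.2 (hDp y hy x hx hxD).le)
  have downq : ∀ x ∈ q.d, ∀ y ∈ D, q.R x y → x ∈ D := by
    intro x hx y hy h
    by_contra hxD
    exact absurd (q.lt x hx y (Dq y hy) h) (not_lt.2 (hpq y (Dp y hy) x hx hxD).le)
  have hlt : ∀ x ∈ p.d ∪ q.d, ∀ y ∈ p.d ∪ q.d, RR x y → x < y := by
    rintro x _ y _ (⟨h1, h2, h3⟩ | ⟨h1, h2, h3⟩ | ⟨h1, _, _, h4, h5, _⟩)
    · exact p.lt x h1 y h2 h3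
    · exact q.lt x h1 y h2 h3
    · exact hpq x h1 y h4 h5
  -- comparison of an element of `D` with a new element below the chain of `q`
  have hDz : ∀ x ∈ D, dq x → ∀ z ∈ q.d, z ∉ D → dq z → q.R x z := by
    intro x hx hdx z hz hzD hdz
    have hxz : x < z := hpq x (Dp x hx) z hz hzD
    rcases h30_cmp hq (Dq x hx) hz hdx hdz with h | h | h
    · exact absurd h hxz.ne
    · exact h
    · exact absurd (q.lt z hz x (Dq x hx) h) (not_lt.2 hxz.le)
  have htrans : ∀ x ∈ p.d ∪ q.d, ∀ y ∈ p.d ∪ q.d, ∀ z ∈ p.d ∪ q.d, RR x y → RR y z → RR x z := by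
    rintro x _ y _ z _ (⟨a1, a2, a3⟩ | ⟨a1, a2, a3⟩ | ⟨a1, a2, a3, a4, a5, w, a6, a7, a8, a9⟩)
      (⟨b1, b2, b3⟩ | ⟨b1, b2, b3⟩ | ⟨b1, b2, b3, b4, b5, v, b6, b7, b8, b9⟩)
    · exact Or.inl ⟨a1, b2, p.trans x a1 y a2 z b2 a3 b3⟩
    · have hy : y ∈ D := mD y a2 b1
      have hx : x ∈ D := downp x a1 y hy a3
      exact Or.inr (Or.inl ⟨Dq x hx, b2, q.trans x (Dq x hx) y b1 z b2 ((hR x hx y hy).1 a3) b3⟩)
    · have hdx : dp x := by
        obtain ⟨u, hu, h⟩ := b3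
        refine ⟨u, hu, Or.inr ?_⟩
        rcases h with rfl | h
        · exact a3
        · exact p.trans x a1 y b1 u (hp.1 hu) a3 h
      by_cases hx : x ∈ D
      · have h1 : q.R x v := hDz x hx ((hc x hx).1 hdx) v b6 b7 b8
        refine Or.inr (Or.inl ⟨Dq x hx, b4, ?_⟩)
        rcases b9 with rfl | h
        · exact h1
        · exact q.trans x (Dq x hx) v b6 z b4 h1 h
      · exact Or.inr (Or.inr ⟨a1, hx, hdx, b4, b5, v, b6, b7, b8, b9⟩)
    · have hy : y ∈ D := mD y b1 a2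
      have hx : x ∈ D := downq x a1 y hy a3
      exact Or.inl ⟨Dp x hx, b2, p.trans x (Dp x hx) y b1 z b2 ((hR x hx y hy).2 a3) b3⟩
    · exact Or.inr (Or.inl ⟨a1, b2, q.trans x a1 y a2 z b2 a3 b3⟩)
    · exact absurd (mD y b1 a2) b2
    · exact absurd (mD y b1 a4) a5
    · have hzD : z ∉ D := fun hz => a5 (downq y b1 z hz b3)
      refine Or.inr (Or.inr ⟨a1, a2, a3, b2, hzD, w, a6, a7, a8, Or.inr ?_⟩)
      rcases a9 with rfl | h
      · exact b3
      · exact q.trans w a6 y a4 z b2 h b3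
    · exact absurd (mD y b1 a4) a5
  have htree : ∀ x ∈ p.d ∪ q.d, ∀ y ∈ p.d ∪ q.d, ∀ z ∈ p.d ∪ q.d, RR x z → RR y z →
      x = y ∨ RR x y ∨ RR y x := by
    -- the case `x` in `q` and `y` new in `p`
    have mixed : ∀ x y z, x ∈ q.d → z ∈ q.d → q.R x z → E y z → RR y x ∨ RR x y ∨ x = y := by
      rintro x y z hx hz h ⟨b1, b2, b3, b4, b5, v, b6, b7, b8, b9⟩
      have hcmp : x = v ∨ q.R x v ∨ q.R v x := by
        rcases b9 with rfl | h'
        · exact Or.inr (Or.inl h)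
        · exact q.tree x hx v b6 z hz h h'
      rcases hcmp with rfl | h1 | h1
      · exact Or.inl (Or.inr (Or.inr ⟨b1, b2, b3, hx, b7, x, b6, b7, b8, Or.inl rfl⟩))
      · have hdx : dq x := by
          obtain ⟨u, hu, h2⟩ := b8
          refine ⟨u, hu, Or.inr ?_⟩
          rcases h2 with rfl | h2
          · exact h1
          · exact q.trans x hx v b6 u (hq.1 hu) h1 h2
        by_cases hxD : x ∈ D
        · rcases h30_cmp hp (Dp x hxD) b1 ((hc x hxD).2 hdx) b3 with h3 | h3 | h3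
          · exact Or.inr (Or.inr h3)
          · exact Or.inr (Or.inl (Or.inl ⟨Dp x hxD, b1, h3⟩))
          · exact Or.inl (Or.inl ⟨b1, Dp x hxD, h3⟩)
        · exact Or.inl (Or.inr (Or.inr ⟨b1, b2, b3, hx, hxD, x, hx, hxD, hdx, Or.inl rfl⟩))
      · have hxD : x ∉ D := fun hxD => b7 (downq v b6 x hxD h1)
        exact Or.inl (Or.inr (Or.inr ⟨b1, b2, b3, hx, hxD, v, b6, b7, b8, Or.inr h1⟩))
    rintro x _ y _ z _ (⟨a1, a2, a3⟩ | ⟨a1, a2, a3⟩ | h1)
      (⟨b1, b2, b3⟩ | ⟨b1, b2, b3⟩ | h2)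
    · rcases p.tree x a1 y b1 z a2 a3 b3 with h | h | h
      · exact Or.inl h
      · exact Or.inr (Or.inl (Or.inl ⟨a1, b1, h⟩))
      · exact Or.inr (Or.inr (Or.inl ⟨b1, a1, h⟩))
    · have hz : z ∈ D := mD z a2 b2
      have hx : x ∈ D := downp x a1 z hz a3
      rcases q.tree x (Dq x hx) y b1 z b2 ((hR x hx z hz).1 a3) b3 with h | h | h
      · exact Or.inl h
      · exact Or.inr (Or.inl (Or.inr (Or.inl ⟨Dq x hx, b1, h⟩)))
      · exact Or.inr (Or.inr (Or.inr (Or.inl ⟨b1, Dq x hx, h⟩)))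
    · exact absurd (mD z a2 h2.2.2.2.1) h2.2.2.2.2.1
    · have hz : z ∈ D := mD z b2 a2
      have hy : y ∈ D := downp y b1 z hz b3
      rcases q.tree x a1 y (Dq y hy) z a2 a3 ((hR y hy z hz).1 b3) with h | h | h
      · exact Or.inl h
      · exact Or.inr (Or.inl (Or.inr (Or.inl ⟨a1, Dq y hy, h⟩)))
      · exact Or.inr (Or.inr (Or.inr (Or.inl ⟨Dq y hy, a1, h⟩)))
    · rcases q.tree x a1 y b1 z a2 a3 b3 with h | h | h
      · exact Or.inl h
      · exact Or.inr (Or.inl (Or.inr (Or.inl ⟨a1, b1, h⟩)))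
      · exact Or.inr (Or.inr (Or.inr (Or.inl ⟨b1, a1, h⟩)))
    · rcases mixed x y z a1 a2 a3 h2 with h | h | h
      · exact Or.inr (Or.inr h)
      · exact Or.inr (Or.inl h)
      · exact Or.inl h
    · exact absurd (mD z b2 h1.2.2.2.1) h1.2.2.2.2.1
    · rcases mixed y x z b1 b2 b3 h1 with h | h | h
      · exact Or.inr (Or.inl h)
      · exact Or.inr (Or.inr h)
      · exact Or.inl h.symm
    · rcases h30_cmp hp h1.1 h2.1 h1.2.2.1 h2.2.2.1 with h | h | h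
      · exact Or.inl h
      · exact Or.inr (Or.inl (Or.inl ⟨h1.1, h2.1, h⟩))
      · exact Or.inr (Or.inr (Or.inl ⟨h2.1, h1.1, h⟩))
  let r : TC Ω :=
    { d := p.d ∪ q.d
      R := RR
      n := p.n
      a := fun x k => (x ∈ p.d ∧ p.a x k) ∨ (x ∈ q.d ∧ q.a x k)
      lt := hlt
      trans := htrans
      tree := htree }
  have hRp : ∀ x ∈ p.d, ∀ y ∈ p.d, (RR x y ↔ p.R x y) := by
    intro x hx y hy
    constructor
    · rintro (h | ⟨h1, h2, h3⟩ | h)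
      · exact h.2.2
      · exact (hR x (mD x hx h1) y (mD y hy h2)).2 h3
      · exact absurd (mD y hy h.2.2.2.1) h.2.2.2.2.1
    · intro h
      exact Or.inl ⟨hx, hy, h⟩
  have hRq : ∀ x ∈ q.d, ∀ y ∈ q.d, (RR x y ↔ q.R x y) := by
    intro x hx y hy
    constructor
    · rintro (⟨h1, h2, h3⟩ | h | h)
      · exact (hR x (mD x h1 hx) y (mD y h2 hy)).1 h3
      · exact h.2.2
      · exact absurd (mD x h.1 hx) h.2.1
    · intro h
      exact Or.inr (Or.inl ⟨hx, hy, h⟩)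
  refine ⟨r, ⟨Finset.subset_union_left, le_rfl, hRp, ?_, ?_⟩,
    ⟨Finset.subset_union_right, hn.ge, hRq, ?_, ?_⟩, ?_, ?_⟩
  · intro x hx k hk
    constructor
    · rintro (h | ⟨h1, h2⟩)
      · exact h.2
      · exact (ha x (mD x hx h1) k hk).2 h2
    · intro h
      exact Or.inl ⟨hx, h⟩
  · intro x _ y _ k hk hk'
    exact absurd hk' (not_lt.2 hk)
  · intro x hx k hk
    constructor
    · rintro (⟨h1, h2⟩ | h)
      · exact (ha x (mD x h1 hx) k (hn ▸ hk)).1 h2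
      · exact h.2
    · intro h
      exact Or.inr ⟨hx, h⟩
  · intro x _ y _ k hk hk'
    exact absurd hk' (not_lt.2 (hn ▸ hk))
  · exact Finset.union_subset (hp.1.trans Finset.subset_union_left)
      (hq.1.trans Finset.subset_union_right)
  · -- the chain
    have mix : ∀ x ∈ cp, ∀ y ∈ cq, x = y ∨ RR x y ∨ RR y x := by
      intro x hx y hy
      have hxd := hp.1 hx
      have hyd := hq.1 hy
      by_cases hxD : x ∈ D
      · rcases h30_cmp hq (Dq x hxD) hyd ((hc x hxD).1 ⟨x, hx, Or.inl rfl⟩)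
          ⟨y, hy, Or.inl rfl⟩ with h | h | h
        · exact Or.inl h
        · exact Or.inr (Or.inl ((hRq x (Dq x hxD) y hyd).2 h))
        · exact Or.inr (Or.inr ((hRq y hyd x (Dq x hxD)).2 h))
      · by_cases hyD : y ∈ D
        · rcases h30_cmp hp hxd (Dp y hyD) ⟨x, hx, Or.inl rfl⟩
            ((hc y hyD).2 ⟨y, hy, Or.inl rfl⟩) with h | h | h
          · exact Or.inl h
          · exact Or.inr (Or.inl ((hRp x hxd y (Dp y hyD)).2 h))
          · exact Or.inr (Or.inr ((hRp y (Dp y hyD) x hxd).2 h))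
        · exact Or.inr (Or.inl (Or.inr (Or.inr ⟨hxd, hxD, ⟨x, hx, Or.inl rfl⟩, hyd, hyD, y, hyd,
            hyD, ⟨y, hy, Or.inl rfl⟩, Or.inl rfl⟩)))
    intro x hx y hy
    show x = y ∨ RR x y ∨ RR y x
    rcases Finset.mem_union.1 hx with hx | hx <;> rcases Finset.mem_union.1 hy with hy | hy
    · rcases hp.2 x hx y hy with h | h | h
      · exact Or.inl h
      · exact Or.inr (Or.inl ((hRp x (hp.1 hx) y (hp.1 hy)).2 h))
      · exact Or.inr (Or.inr ((hRp y (hp.1 hy) x (hp.1 hx)).2 h))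
    · exact mix x hx y hy
    · rcases mix y hy x hx with h | h | h
      · exact Or.inl h.symm
      · exact Or.inr (Or.inr h)
      · exact Or.inr (Or.inl h)
    · rcases hq.2 x hx y hy with h | h | h
      · exact Or.inl h
      · exact Or.inr (Or.inl ((hRq x (hq.1 hx) y (hq.1 hy)).2 h))
      · exact Or.inr (Or.inr ((hRq y (hq.1 hy) x (hq.1 hx)).2 h))

end Pool.Agent.Helper32.FR
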